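import Pool.Agent.H1.RB.Sym
import Pool.Agent.H1.RB.System

/-!
# Ramsey robustness, asymmetric form for families of graphs

`F_1, ..., F_r` are families of graphs. `G → (F_1, ..., F_r)` if in every `r`-colouring of the
edges of `G` there are a colour `i` and a copy in colour `i` of a member of `F_i`; `G` is
Ramsey-minimal for `(F_1, ..., F_r)` if no proper subgraph has this property; `mult F G` is the
minimum over all colourings of the number of pairs `(i, S)`, `S` a copy in colour `i` of a member of
`F_i`, and `copies K G` is the number of copies in `G` of members of the family `K`.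
The definitions are at the top of `Pool/Agent/H1/RB/Fam.lean`; those of the question (one graph in
all the colours) are in the library module `R_seed8 Results/MP_742028_co/Robustness`.
-/

set_option autoImplicit false

namespace Pool.Agent.Results.MP_742028_co.AsymmetricFamilies

open SimpleGraph Pool.Agent.H1.RB
open Pool.Agent.Results.MP_742028_co.Robustness (robustness RamseyMinimal RamseyFinite)

/-- (1) The question: if `H` is `r`-Ramsey-infinite, the infimum of `Rob_r(H, G)` over all
`r`-Ramsey-minimal graphs `G` is `0`.

(2) Let `G` be Ramsey-minimal for `(F_1, ..., F_r)`, let `F_i = K` for all colours `i` of a set `T`,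
and let the members of `K` have at most `m` edges (and at least two if `T` has more than one
colour). Then `|T| mult(F, G) e(G) ≤ m copies(K, G)`; in particular `G` has at least
`|T| e(G) / m` copies of members of `K`.

(3) For finite families and every `ε > 0` only finitely many Ramsey-minimal graphs `G` satisfy
`mult(F, G) ≥ ε copies(F_i, G)` for some colour `i`.

(4) If there are infinitely many Ramsey-minimal graphs for `(F_1, ..., F_r)`, then for every
`ε > 0` one of them satisfies `mult(F, G) < ε copies(F_i, G)` for all the colours `i` at once.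

(5) There are only finitely many Ramsey-minimal graphs if and only if the ratios
`mult(F, G) / copies(F_i, G)` are bounded away from `0`.

(6) If all the families consist of the graph `H` only, then the notions are those of the question
(the multiplicity for graphs `H` with at least one edge).

(7) The inequality behind (2), for all systems of sets: let `ed s` (`s : ι`) be finitely many
subsets of a finite set `E`, let `A i` be the sets that are relevant for the colour `i`, and let
every element `e` of `E` be critical: some colouring of `E` has only sets through `e` that are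
relevant for a colour `i` and have this colour. If `A i = B` for all the colours `i` of a set `T`
(and the members of `B` have at least two elements if `T` has more than one colour), and `M` is the
minimum over all colourings of the number of pairs `(i, s)`, `s` relevant for `i` and of colour `i`,
then `|T| M |E|` is at most the sum of the cardinalities of the members of `B`. -/
theorem result :
    (∀ (r : ℕ), 2 ≤ r → ∀ (W : Type) [Finite W] (H : SimpleGraph W), ¬ RamseyFinite r H →
      sInf {x : ℝ | ∃ (n : ℕ) (G : SimpleGraph (Fin n)), RamseyMinimal r H G ∧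
        x = robustness r H G} = 0) ∧
    (∀ (r : ℕ), 0 < r → ∀ (F : Fin r → Fam) (V : Type) [Finite V] (G : SimpleGraph V),
      RMinimal F G → ∀ (T : Finset (Fin r)) (K : Fam) (m : ℕ), (∀ i ∈ T, F i = K) →
        (∀ P ∈ K, P.2.edgeSet.ncard ≤ m) →
        (T.card ≤ 1 ∨ ∀ P ∈ K, 2 ≤ P.2.edgeSet.ncard) →
          T.card * mult F G * G.edgeSet.ncard ≤ m * copies K G ∧
          T.card * G.edgeSet.ncard ≤ m * copies K G) ∧
    (∀ (r : ℕ), 0 < r → ∀ F : Fin r → Fam, (∀ i, (F i).Finite) → ∀ ε : ℝ, 0 < ε →
      ∃ T : Finset (Σ n : ℕ, SimpleGraph (Fin n)), ∀ (n : ℕ) (G : SimpleGraph (Fin n)),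
        RMinimal F G → (∃ i, ε * copies (F i) G ≤ mult F G) → ∃ P ∈ T, Nonempty (G ≃g P.2)) ∧
    (∀ (r : ℕ), 0 < r → ∀ F : Fin r → Fam, (∀ i, (F i).Finite) → ¬ RFinite F →
      ∀ ε : ℝ, 0 < ε → ∃ (n : ℕ) (G : SimpleGraph (Fin n)), RMinimal F G ∧
        ∀ i, (mult F G : ℝ) < ε * copies (F i) G) ∧
    (∀ (r : ℕ), 0 < r → ∀ F : Fin r → Fam, (∀ i, (F i).Finite) →
      (RFinite F ↔ ∃ ε : ℝ, 0 < ε ∧ ∀ (n : ℕ) (G : SimpleGraph (Fin n)),
        RMinimal F G → ∀ i, ε * copies (F i) G ≤ mult F G)) ∧
    (∀ (r n : ℕ) (H : SimpleGraph (Fin n)),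
      (RFinite (fun _ : Fin r => single H) ↔ RamseyFinite r H) ∧
      ∀ (V : Type) [Finite V] (G : SimpleGraph V),
        (RMinimal (fun _ : Fin r => single H) G ↔ RamseyMinimal r H G) ∧
        copies (single H) G = Robustness.multiplicity 1 H G ∧
        (1 ≤ H.edgeSet.ncard → mult (fun _ : Fin r => single H) G = Robustness.multiplicity r H G)) ∧
    (∀ (E ι : Type) [Fintype E] [Finite ι] (r : ℕ) (ed : ι → Finset E) (A : Fin r → Set ι),
      (∀ e : E, ∃ c : E → Fin r, ∀ i : Fin r, ∀ s ∈ A i, (∀ x ∈ ed s, c x = i) → e ∈ ed s) →
      ∀ (T : Finset (Fin r)) (B : Finset ι), (∀ i ∈ T, A i = B) →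
        (T.card ≤ 1 ∨ ∀ s ∈ B, 2 ≤ (ed s).card) →
        T.card * (⨅ c : E → Fin r,
          {x : Fin r × ι | x.2 ∈ A x.1 ∧ ∀ e ∈ ed x.2, c e = x.1}.ncard) * Fintype.card E ≤
            ∑ s ∈ B, (ed s).card) := by
  refine ⟨fun r hr W _ H h => Robustness.result r hr W H h, ?_,
    fun r hr F hF ε hε => finitely_many hr hF hε, ?_, fun r hr F hF => finite_iff hr hF,
    fun r n H => ⟨finite_single, fun V _ G => ⟨minimal_single, copies_single, mult_single⟩⟩,
    fun E ι _ _ r ed A hc T B hT h2 => system ed A hc T B hT h2⟩
  · intro r hr F V _ G hG T K m hT hm h2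
    have h3 := hG.key hr T K hT m hm h2
    refine ⟨h3, le_trans ?_ h3⟩
    exact Nat.mul_le_mul_right _ (Nat.le_mul_of_pos_right _ (mult_pos hr hG.1))
  · intro r hr F hF hinf ε hε
    by_contra hcon
    push Not at hcon
    obtain ⟨T, hT⟩ := finitely_many hr hF hε
    exact hinf ⟨T, fun n G hG => hT n G hG (hcon n G hG)⟩

end Pool.Agent.Results.MP_742028_co.AsymmetricFamilies
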